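import Pool.Agent.H47.LV.Wdf
import Pool.Agent.H81.RW.Sqf

/-!
# Module Os: one step of the pull back

PROOF. `WW.loc` at `z`. First alternative: `g` on `ball (f z) δ`; `W = g '' D`, `bh_ball`; `z = g (f z)`. Second alternative (with `v = f c`, `η = η c`): `ball (f z) δ ⊆ ball v (r₀ ^ 2 / 4)`, `z ∈ η '' ball 0 r₀`: if `v ∈ D` the right side; if `v ∉ D`: `bh_rt` with `r = r₀`, `U = N` (`D ⊆ ball v (r₀ ^ 2)`); `W ⊆ η '' ball 0 r₀ ⊆ N`.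
-/

set_option autoImplicit false

open Filter Topology Metric Set MeasureTheory

namespace Pool.Agent.H47.LV

open Pool.Agent.H81.RW

open Pool.Agent.H56.TH

variable {f : ℂ → ℂ} {N J P Cr : Set ℂ} {η : ℂ → ℂ → ℂ} {r₀ δ : ℝ} {ρ : ℂ → ENNReal}

theorem os (h : WW f N J P Cr η r₀ δ ρ) {D : Set ℂ} (hD : IsOpen D) (hc : IsPreconnected D) (hf : Full D) {z : ℂ}
    (hz : z ∈ N) (hzJ : z ∈ J) (hzP : infDist z P < δ) (hfz : f z ∈ D) (hDb : D ⊆ ball (f z) δ) :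
    (∃ W : Set ℂ, Bh f W D ∧ z ∈ W ∧ W ⊆ N) ∨
      ∃ c ∈ Cr, f c ∈ D ∧ z ∈ η c '' ball 0 r₀ ∧ ball (f z) δ ⊆ ball (f c) (r₀ ^ 2 / 4) := by
  rcases h.loc z hz hzJ hzP with ⟨g, hg, hgz, hgu⟩ | ⟨c, hcC, hb, hze⟩
  · left
    refine ⟨g '' D, bh_ball hg h.No h.fd (fun u hu => hgu u hu) hD hDb, ⟨f z, hfz, hgz⟩, ?_⟩
    rintro _ ⟨u, hu, rfl⟩
    exact (hgu u (hDb hu)).1
  · by_cases hv : f c ∈ D
    · right
      exact ⟨c, hcC, hv, hze, hb⟩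
    · left
      have h1 : D ⊆ ball (f c) (r₀ ^ 2) := by
        refine (hDb.trans hb).trans (ball_subset_ball ?_)
        nlinarith [sq_nonneg r₀]
      obtain ⟨W, hW, hzW, hWη⟩ := bh_rt h.No h.fd (h.ηd c hcC) (h.ηi c hcC) (h.ηv c hcC) hD hc hf h1 hv hze hfz
      refine ⟨W, hW, hzW, hWη.trans ?_⟩
      rintro _ ⟨x, hx, rfl⟩
      exact (h.ηv c hcC x hx).1

end Pool.Agent.H47.LV
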