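import Pool.Agent.H47.LG.Psg
import Pool.Agent.H47.LG.Uc
import Pool.Agent.H47.LV.Clw
import Pool.Agent.H64.SPG.Ns
import Pool.Agent.H81.RW.Rhm
import Pool.Agent.H81.RW.Rhl

/-!
# Windows around a critical value, `P` the closure of the orbit of each critical value (one Julia critical point)

`wwv_pg`: the setting `WW` of this folder (`M = P`, not minimal) from `PG`. `win_v`: if `P` has clusters at arbitrarily small scales then there are unimodal
functions at a critical value `f c` with arbitrarily small support. `cc_v`: the component of `f c` in `P` is a point.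
-/

set_option autoImplicit false

open Filter Topology Metric Set MeasureTheory

namespace Pool.Agent.H47.LV

open Pool.Agent.H81.RW (rh_me rh_lb rh_lg UM)
open Pool.Agent.H56.TH Pool.Agent.H66.DIM
open Pool.Agent.H66.SP (PG)
open Pool.Agent.H47.LG (fr_pg pg_nc uc)

variable {f : ℂ → ℂ} {U J P Cr : Set ℂ} {δ : ℝ} {η : ℂ → ℂ → ℂ} {r₀ : ℝ}

theorem wwv_pg (h : PG f U J P Cr δ η r₀) (hCP : Cr ⊆ P) (hn : Cr.Nonempty)
    (hmn : ∀ c ∈ Cr, P ⊆ closure {y | ∃ n : ℕ, f^[n] (f c) = y}) :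
    ∃ δ' : ℝ, 0 < δ' ∧ δ' ≤ δ ∧ WW f U J P Cr η r₀ δ' (rh f U J P δ) := by
  obtain ⟨δ₂, hδ₂, -, hloc⟩ := h.loc
  have hF := fr_pg h
  have hPc : IsCompact P := h.Jc.of_isClosed_subset h.Pc h.PJ
  obtain ⟨δ', hd⟩ : ∃ δ', δ' = min δ₂ (δ / 2) := ⟨_, rfl⟩
  have hδ0 := h.hδ
  have h0 : 0 < δ' := by
    rw [hd]
    exact lt_min hδ₂ (by linarith)
  have h2 : δ' ≤ δ₂ := by rw [hd]; exact min_le_left _ _
  have h3 : δ' ≤ δ / 2 := by rw [hd]; exact min_le_right _ _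
  have h3' : δ' ≤ δ := by linarith
  have htJ : thickening δ' J ⊆ thickening δ J := thickening_mono h3' J
  have htM : thickening δ' P ⊆ thickening δ J := (thickening_mono h3' P).trans (thickening_subset_of_subset δ h.PJ)
  obtain ⟨R, hR⟩ : ∃ R : ℝ, ∀ x ∈ J, ‖x‖ ≤ R := h.Jc.isBounded.exists_norm_le
  refine ⟨δ', h0, h3', ?_⟩
  exact {
    No := h.Uo
    fd := h.fd
    Jc := h.Jc
    Jf := h.Jf
    ns := by
      intro t ht
      obtain ⟨ε, hε, hns⟩ := Pool.Agent.H64.SPG.pg_ns h (R + 1) ht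
      refine ⟨ε, hε, fun q k c hq => ?_⟩
      have hq1 : ‖q‖ ≤ R + 1 ∧ (∀ j < k, f^[j] q ∈ U) ∧ f^[k] q ∈ J := by
        rcases hq with hq | ⟨⟨x, hx, hqx⟩, h4, h5⟩
        · exact ⟨(hR q hq).trans (by linarith), fun j _ => h.JU (Pool.Agent.H66.SP.J_it h j hq),
            Pool.Agent.H66.SP.J_it h k hq⟩
        · refine ⟨?_, h4, h.PJ h5⟩
          rw [mem_ball, dist_eq_norm] at hqx
          have h6 : ‖q‖ ≤ ‖q - x‖ + ‖x‖ := by
            have h7 : q = (q - x) + x := by ring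
            calc ‖q‖ = ‖(q - x) + x‖ := by rw [← h7]
              _ ≤ ‖q - x‖ + ‖x‖ := norm_add_le _ _
          linarith [hR x hx]
      exact hns q k c hq1.1 hq1.2.1 hq1.2.2
    uc := uc h.Uo h.fd h.Jc h.JU (fun z hz => pg_nc h hz) one_pos
    Pc := hPc
    PJ := h.PJ
    PN := h.PJ.trans h.JU
    Pf := h.Pf
    mnv := hmn
    Cf := h.Cf
    Cn := hn
    CP := hCP
    hδ := h0
    hr := h.hρ
    ηd := fun c hc => (h.nf c hc).1
    ηi := fun c hc => (h.nf c hc).2.1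
    η0 := fun c hc => (h.nf c hc).2.2.1
    ηv := fun c hc => (h.nf c hc).2.2.2
    loc := by
      intro z hz hzJ _
      have hsub : ball (f z) δ' ⊆ ball (f z) δ₂ := ball_subset_ball h2
      rcases hloc (f z) (h.Jf z hzJ) z hz (mem_ball_self hδ₂) with ⟨g, hg, hgz, hgu⟩ | ⟨c, hc, hcs, hcz⟩
      · exact Or.inl ⟨g, hg.mono hsub, hgz, fun u hu => hgu u (hsub hu)⟩
      · exact Or.inr ⟨c, hc, hsub.trans hcs, hcz⟩
    br := by
      intro k w z r hb hP hN hk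
      obtain ⟨G, hG1, hG2, hG3⟩ := hF.br k w z r (hb.trans htM) (fun u hu huP =>
        (Set.disjoint_left.1 hP) hu huP) ⟨hN, htM (hb hk)⟩ hk
      exact ⟨G, hG1, hG2, fun u hu => ⟨(hG3 u hu).1.1, (hG3 u hu).2⟩⟩
    me := rh_me hF
    lb := fun k x q hx _ hqP hd' hder => rh_lb hF hx hqP (hd'.trans_le h3) hder
    ct := fun x hx hfx hder => rh_ct hF hx (htJ hfx) hder
    up := fun w d hd' hb hP => rh_up hF hd' (hb.trans htM) hP
    lg := by
      obtain ⟨K, hK1, hK⟩ := rh_lg hF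
      exact ⟨K, hK1, fun x y d hd' hb hP hxy => hK x y d hd' (hb.trans htM) hP hxy⟩ }

/-- small windows at the critical values -/
theorem win_v (h : PG f U J P Cr δ η r₀) (hCP : Cr ⊆ P) (hn : Cr.Nonempty)
    (hmn : ∀ c ∈ Cr, P ⊆ closure {y | ∃ n : ℕ, f^[n] (f c) = y}) (hclu : Clu P) {κ : ℝ} (hκ : 0 < κ) :
    ∃ c ∈ Cr, ∃ w : ℂ → ℝ, UM P w ∧ w (f c) = 1 ∧ ∀ y, 0 < w y → ‖y - f c‖ < κ := by
  obtain ⟨δ', -, -, hW⟩ := wwv_pg h hCP hn hmn
  obtain ⟨L, hL, hcl⟩ := clw hW hclu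
  obtain ⟨κ', hκ', hmv⟩ := mv hW hκ hL (τ := 1 / 2) (by norm_num) (by norm_num)
  obtain ⟨x, hx, w, hw, hwx, hsz, hell⟩ := hcl κ' hκ'
  obtain ⟨c, hc, u, h1, h2, h3, -⟩ := hmv x hx w hw hwx hsz hell
  exact ⟨c, hc, u, h1, h2, h3⟩

/-- one critical point: small windows at the critical value -/
theorem win_one {c : ℂ} (h : PG f U J P {c} δ η r₀) (hcP : c ∈ P)
    (hmn : P ⊆ closure {y | ∃ n : ℕ, f^[n] (f c) = y}) (hclu : Clu P) {κ : ℝ} (hκ : 0 < κ) :
    ∃ w : ℂ → ℝ, UM P w ∧ w (f c) = 1 ∧ ∀ y, 0 < w y → ‖y - f c‖ < κ := by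
  obtain ⟨c', hc', h1⟩ := win_v h (singleton_subset_iff.2 hcP) ⟨c, rfl⟩ (fun c' hc' => by
    rw [mem_singleton_iff.1 hc']
    exact hmn) hclu hκ
  rw [mem_singleton_iff.1 hc'] at h1
  exact h1

/-- one critical point: the component of the critical value in `P` is a point -/
theorem cc_v {c : ℂ} (h : PG f U J P {c} δ η r₀) (hcP : c ∈ P)
    (hmn : P ⊆ closure {y | ∃ n : ℕ, f^[n] (f c) = y}) (hclu : Clu P) {C : Set ℂ} (hC : IsPreconnected C) (hCP : C ⊆ P)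
    (hv : f c ∈ C) : C = {f c} := by
  refine subset_antisymm (fun y hy => ?_) (singleton_subset_iff.2 hv)
  by_contra hne
  rw [mem_singleton_iff] at hne
  have hκ : 0 < ‖y - f c‖ := norm_pos_iff.2 (sub_ne_zero.2 hne)
  obtain ⟨w, hw, hw1, hws⟩ := win_one h hcP hmn hclu hκ
  have hwc : Continuous w := Pool.Agent.H81.RW.ul_cont (Pool.Agent.H81.RW.ul_um hw)
  rcases hw.va y (hCP hy) with h0 | h1
  · have h2 : Icc (w y) (w (f c)) ⊆ w '' C := hC.intermediate_value hy hv hwc.continuousOn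
    obtain ⟨x, hx, hx2⟩ := h2 ⟨by rw [h0]; norm_num, by rw [hw1]; norm_num⟩ (a := (1 / 2 : ℝ))
    rcases hw.va x (hCP hx) with h3 | h3
    · rw [h3] at hx2
      norm_num at hx2
    · rw [h3] at hx2
      norm_num at hx2
  · exact lt_irrefl _ (hws y (by rw [h1]; norm_num))

end Pool.Agent.H47.LV
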